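import Mathlib
import Pool.Agent.H.MP_86dbc5_an.C

namespace Pool.Agent.H.MP_78c86a_lc

open MeasureTheory Set Filter Topology TopologicalSpace Function Pool.Agent.H.MP_86dbc5_an
open scoped ComplexConjugate

variable {I : Type}

/-- coordinates -/
noncomputable def cr (i : I) : (I → UnitAddCircle) →+ UnitAddCircle :=
  Pi.evalAddMonoidHom (fun _ => UnitAddCircle) i

theorem cr_cont (i : I) : Continuous (cr i) := continuous_apply i

theorem cr_sep (x y : I → UnitAddCircle) (h : ∀ o, cr o x = cr o y) : x = y := funext h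

/-- characters -/
noncomputable abbrev ev (g : I →₀ ℤ) : (I → UnitAddCircle) →+ UnitAddCircle := dm cr g

theorem ev_add (g h : I →₀ ℤ) (x) : ev (g + h) x = ev g x + ev h x := by simp [ev, dm]
theorem ev_sub (g h : I →₀ ℤ) (x) : ev (g - h) x = ev g x - ev h x := by simp [ev, dm]
theorem ev_zero (x : I → UnitAddCircle) : ev 0 x = 0 := by simp [ev, dm]
theorem ev_single (i : I) (n : ℤ) (x) : ev (Finsupp.single i n) x = n • x i := by
  simp [ev, dm, cr]
theorem ev_smul (n : ℤ) (g : I →₀ ℤ) (x) : ev (n • g) x = n • ev g x := by simp [ev, dm]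

variable (r : I → I →₀ ℤ) (a : I → UnitAddCircle)

/-- the dual nilpotent map -/
noncomputable def RR : (I →₀ ℤ) →ₗ[ℤ] (I →₀ ℤ) := Finsupp.linearCombination ℤ r

/-- the nilpotent part -/
noncomputable def NN : (I → UnitAddCircle) →+ (I → UnitAddCircle) :=
  AddMonoidHom.pi fun i => ev (r i)

theorem NN_cont : Continuous (NN r) := continuous_pi fun i => dm_cont cr cr_cont (r i)

theorem ev_NN (g : I →₀ ℤ) (x) : ev g (NN r x) = ev (RR r g) x := by
  induction g using Finsupp.induction_linear with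
  | zero => simp [ev_zero]
  | add f g h1 h2 => rw [ev_add, map_add (RR r), ev_add, h1, h2]
  | single i n => rw [ev_single, RR, Finsupp.linearCombination_single, ev_smul]; rfl

/-- the affine map -/
noncomputable def Tf (x : I → UnitAddCircle) : I → UnitAddCircle := x + NN r x + a

theorem Tf_apply (x i) : Tf r a x i = x i + ev (r i) x + a i := rfl

theorem ev_Tf (g : I →₀ ℤ) (x) : ev g (Tf r a x) = ev g x + ev (RR r g) x + ev g a := by
  rw [Tf, map_add, map_add, ev_NN]

theorem Tf_cont : Continuous (Tf r a) := (continuous_id.add (NN_cont r)).add continuous_const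

variable {r} {lv : I → ℕ}

theorem RR_lv (hl : ∀ i j, r i j ≠ 0 → lv j < lv i) {k : ℕ} {g : I →₀ ℤ}
    (h : ∀ j, g j ≠ 0 → lv j < k + 1) (j : I) (hj : RR r g j ≠ 0) : lv j < k := by
  rw [RR, Finsupp.linearCombination_apply, Finsupp.sum, Finsupp.finset_sum_apply] at hj
  obtain ⟨i, hi, h2⟩ := Finset.exists_ne_zero_of_sum_ne_zero hj
  have h3 := hl i j fun hh => h2 (by simp [hh])
  have := h i (Finsupp.mem_support_iff.1 hi)
  omega

theorem RR3 (hl : ∀ i j, r i j ≠ 0 → lv j < lv i) (h3 : ∀ i, lv i < 3) (g : I →₀ ℤ) :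
    RR r (RR r (RR r g)) = 0 := by
  ext j
  by_contra h
  exact absurd (RR_lv hl (RR_lv hl (RR_lv hl fun j _ => h3 j)) j h) (Nat.not_lt_zero _)

theorem NN_lv (hl : ∀ i j, r i j ≠ 0 → lv j < lv i) {z : I → UnitAddCircle} {i : I}
    (h : ∀ j, lv j < lv i → z j = 0) : NN r z i = 0 := by
  show ev (r i) z = 0
  rw [dm_apply]
  exact Finset.sum_eq_zero fun j hj => by
    rw [show cr j z = 0 from h j (hl i j (Finsupp.mem_support_iff.1 hj)), smul_zero]

/-- the affine homeomorphism -/
noncomputable def Th (h3 : ∀ g, RR r (RR r (RR r g)) = 0) :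
    (I → UnitAddCircle) ≃ₜ (I → UnitAddCircle) where
  toFun := Tf r a
  invFun y := (y - a) - NN r (y - a) + NN r (NN r (y - a))
  left_inv x := by
    have n3 : NN r (NN r (NN r x)) = 0 := funext fun i => by
      have := ev_single i 1 (NN r (NN r (NN r x)))
      rw [ev_NN, ev_NN, ev_NN, h3, ev_zero, one_smul] at this
      exact this.symm
    simp only [Tf, add_sub_cancel_right, map_add, n3]
    abel
  right_inv y := by
    have n3 : NN r (NN r (NN r (y - a))) = 0 := funext fun i => by
      have := ev_single i 1 (NN r (NN r (NN r (y - a))))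
      rw [ev_NN, ev_NN, ev_NN, h3, ev_zero, one_smul] at this
      exact this.symm
    simp only [Tf]
    rw [map_add, map_sub (NN r) (y - a), n3]
    abel
  continuous_toFun := Tf_cont r a
  continuous_invFun := by
    have := NN_cont r
    fun_prop

theorem nil {M : Type} [AddCommGroup M] [IsAddTorsionFree M] (R : Module.End ℤ M) (s : Finset ℕ)
    (hs : s.Nonempty) (n : ℕ) : ∀ δ : M, (R ^ n) δ = 0 → ∑ j ∈ s, ((1 + R) ^ j) δ = 0 → δ = 0 := by
  induction n with
  | zero => exact fun δ h _ => h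
  | succ n ih =>
    intro δ h1 h2
    have h3 : R δ = 0 := ih _ (by rw [← h1, pow_succ]; rfl) (by
      rw [← map_zero R, ← h2, map_sum]
      refine Finset.sum_congr rfl fun j _ => ?_
      exact LinearMap.congr_fun (((Commute.one_left R).add_left (Commute.refl R)).pow_left j) δ)
    have h4 : ∀ j : ℕ, ((1 + R) ^ j : Module.End ℤ M) δ = δ := fun j => by
      induction j with
      | zero => rfl
      | succ j ih => rw [pow_succ, Module.End.mul_apply, LinearMap.add_apply, h3, add_zero,
          Module.End.one_apply, ih]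
    simp only [h4, Finset.sum_const] at h2
    exact (nsmul_eq_zero_iff_right hs.card_pos.ne').1 h2

variable [Countable I]

/-- Haar measure -/
noncomputable def hm (I : Type) [Countable I] : Measure (I → UnitAddCircle) :=
  Measure.addHaarMeasure ⊤

instance : (hm I).IsAddHaarMeasure := by unfold hm; infer_instance
instance : IsProbabilityMeasure (hm I) :=
  ⟨by simpa [hm] using
    Measure.addHaarMeasure_self (K₀ := (⊤ : PositiveCompacts (I → UnitAddCircle)))⟩

theorem Tf_mp (h3 : ∀ g, RR r (RR r (RR r g)) = 0) : MeasurePreserving (Tf r a) (hm I) (hm I) :=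
  (measurePreserving_add_right (hm I) a).comp (AddMonoidHom.measurePreserving
    (f := AddMonoidHom.id _ + NN r) (continuous_id.add (NN_cont r))
    (fun y => by
      obtain ⟨x, hx⟩ := (Th 0 h3).surjective y
      exact ⟨x, by rw [← hx]; exact (add_zero _).symm⟩) rfl)

theorem int_ev {g : I →₀ ℤ} (hg : g ≠ 0) : ∫ x, E (ev g x) ∂(hm I) = 0 := by
  classical
  obtain ⟨i, hi⟩ := Finsupp.ne_iff.1 hg
  have hi' : (g i : ℝ) ≠ 0 := by exact_mod_cast hi
  have := int_shift cr (hm I) (F := fun _ => 1) (l := 1)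
    (a := Pi.single i ((1 / (2 * g i) : ℝ) : UnitAddCircle)) (by simp) g (by
      rw [map_one, mul_one, ← E_zero, dm_apply, Finset.sum_eq_single i]
      · intro h
        have h2 := E_inj h
        simp only [cr, Pi.evalAddMonoidHom_apply, Pi.single_eq_same] at h2
        rw [← AddCircle.coe_zsmul, AddCircle.coe_eq_zero_iff] at h2
        obtain ⟨n, hn⟩ := h2
        simp only [zsmul_eq_mul, mul_one] at hn
        have : (2 * n : ℝ) = 1 := by rw [hn]; field_simp
        have : 2 * n = 1 := by exact_mod_cast this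
        omega
      · intro j _ hj
        simp [cr, hj]
      · intro h
        simp [Finsupp.notMem_support_iff.1 h])
  simpa using this

theorem coef_lim {F : (I → UnitAddCircle) → ℂ} (hF : MemLp F 2 (hm I)) :
    Tendsto (fun g => ‖∫ x, E (ev g x) * conj (F x) ∂(hm I)‖ ^ 2) cofinite (𝓝 0) := by
  classical
  have orth : Orthonormal ℂ fun g : I →₀ ℤ =>
      ContinuousMap.toLp (E := ℂ) 2 (hm I) ℂ (chi cr cr_cont g) := by
    rw [orthonormal_iff_ite]
    intro g h
    rw [ContinuousMap.inner_toLp]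
    simp only [chi, ContinuousMap.coe_mk, ← E_neg, ← E_add, ← sub_eq_add_neg, ← ev_sub]
    split_ifs with e
    · simp [e, ev_zero, E_zero]
    · exact int_ev (sub_ne_zero.2 (Ne.symm e))
  refine (orth.inner_products_summable (x := hF.toLp F)).tendsto_cofinite_zero.congr fun g => ?_
  rw [norm_inner_symm, L2.inner_def]
  congr 2
  refine integral_congr_ae ?_
  filter_upwards [hF.coeFn_toLp,
    ContinuousMap.coeFn_toLp (p := 2) (𝕜 := ℂ) (hm I) (chi cr cr_cont g)] with x e1 e2
  rw [e1, e2]
  simp [chi]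

theorem memE {F : (I → UnitAddCircle) → UnitAddCircle} (hF : Measurable F) :
    MemLp (fun x => E (F x)) 2 (hm I) :=
  MemLp.of_bound (E_cont.measurable.comp hF).aestronglyMeasurable 1
    (Eventually.of_forall fun _ => (E_norm _).le)

theorem coef (h3 : ∀ g, RR r (RR r (RR r g)) = 0) {F : (I → UnitAddCircle) → UnitAddCircle}
    (hF : Measurable F) {c : UnitAddCircle} {χ : I →₀ ℤ}
    (h : ∀ᵐ x ∂(hm I), F (Tf r a x) = F x + ev χ x + c) (g : I →₀ ℤ)
    (hg : ∫ x, E (ev g x) * conj (E (F x)) ∂(hm I) ≠ 0) : RR r g = χ ∧ ev g a = c := by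
  obtain ⟨f, hf⟩ : ∃ f : (I →₀ ℤ) → ℂ, ∀ g, f g = ∫ x, E (ev g x) * conj (E (F x)) ∂(hm I) :=
    ⟨_, fun _ => rfl⟩
  have key : ∀ g, f g = E (ev g a - c) * f (g + RR r g - χ) := fun g => by
    have m : Measurable fun x => E (ev g x) * conj (E (F x)) :=
      (E_cont.comp (dm_cont cr cr_cont g)).measurable.mul
        (Complex.continuous_conj.measurable.comp (E_cont.measurable.comp hF))
    rw [hf, hf, ← integral_const_mul, ← (Tf_mp a h3).map_eq,
      integral_map (Tf_mp a h3).measurable.aemeasurable m.aestronglyMeasurable,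
      (Tf_mp a h3).map_eq]
    refine integral_congr_ae ?_
    filter_upwards [h] with x hx
    simp only [hx, ev_Tf, ev_sub, ev_add, ← E_neg, ← E_add]
    congr 1
    abel
  rw [← hf] at hg
  obtain ⟨s, s0, hs⟩ : ∃ s : ℕ → (I →₀ ℤ), s 0 = g ∧ ∀ k, s (k + 1) = s k + RR r (s k) - χ :=
    ⟨fun k => Nat.rec g (fun _ u => u + RR r u - χ) k, rfl, fun _ => rfl⟩
  have n1 : ∀ k, ‖f (s k)‖ = ‖f g‖ := fun k => by
    induction k with
    | zero => rw [s0]
    | succ k ih => rw [← ih, key (s k), norm_mul, E_norm, one_mul, hs]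
  have ni : ¬ Injective s := fun hi => by
    have := ((coef_lim (memE hF)).comp hi.tendsto_cofinite).congr
      (f₂ := fun _ => ‖f g‖ ^ 2) fun k => by simp only [comp, ← hf, n1]
    rw [tendsto_const_nhds_iff] at this
    exact hg (by simpa using this)
  have d1 : ∀ k, s (k + 1) - s k = ((1 + RR r) ^ k) (RR r g - χ) := fun k => by
    induction k with
    | zero => rw [hs, s0]; simp; abel
    | succ k ih =>
      rw [pow_succ', Module.End.mul_apply, ← ih, hs (k + 1), LinearMap.add_apply,
        Module.End.one_apply, map_sub, hs k]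
      abel
  have d2 : ∀ k l, k < l → s k = s l → RR r g - χ = 0 := fun k l hkl e => by
    have hχ : RR r (RR r (RR r χ)) = 0 := h3 χ
    refine nil (RR r) (Finset.Ico k l) (Finset.nonempty_Ico.2 hkl) 3 _ (h3 _) ?_
    simp only [← d1]
    rw [Finset.sum_Ico_sub (f := s) hkl.le, e, sub_self]
  have d3 : RR r g - χ = 0 := by
    obtain ⟨k, l, e, hkl⟩ := not_injective_iff.1 ni
    rcases lt_or_gt_of_ne hkl with h | h
    · exact d2 k l h e
    · exact d2 l k h e.symm
  refine ⟨sub_eq_zero.1 d3, ?_⟩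
  have := key g
  rw [add_sub_assoc, d3, add_zero] at this
  exact sub_eq_zero.1 (E_inj ((mul_right_cancel₀ hg (this.symm.trans (one_mul _).symm)).trans
    E_zero.symm))

theorem qconst (h3 : ∀ g, RR r (RR r (RR r g)) = 0) (hk : ∀ g, RR r g = 0 → ev g a = 0 → g = 0)
    {F : (I → UnitAddCircle) → UnitAddCircle} (hF : Measurable F)
    (h : ∀ᵐ x ∂(hm I), F (Tf r a x) = F x) : ∃ d, ∀ᵐ x ∂(hm I), F x = d := by
  have hE := memE hF
  have := zero_of_chi cr (hm I) cr_cont cr_sep
    (hE.sub (memLp_const (∫ y, E (F y) ∂(hm I)))) fun m => by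
    have i1 : Integrable (fun x => E (ev m x) * conj (E (F x))) (hm I) := by
      simp only [← E_neg, ← E_add]
      exact (memE ((dm_cont cr cr_cont m).measurable.add hF.neg)).integrable one_le_two
    have i2 : Integrable (fun x => E (ev m x) * conj (∫ y, E (F y) ∂(hm I))) (hm I) :=
      ((memE (dm_cont cr cr_cont m).measurable).integrable one_le_two).mul_const _
    simp only [Pi.sub_apply, map_sub, mul_sub]
    rw [integral_sub i1 i2, integral_mul_const]
    by_cases hm0 : m = 0
    · simp [hm0, ev_zero, E_zero, integral_conj]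
    · rw [int_ev hm0, zero_mul, sub_zero]
      by_contra hh
      obtain ⟨h1, h2⟩ := coef a h3 hF (c := 0) (χ := 0) (by simpa [ev_zero] using h) m hh
      exact hm0 (hk m h1 h2)
  obtain ⟨x0, hx0⟩ := this.exists
  refine ⟨F x0, this.mono fun x hx => E_inj ?_⟩
  exact (sub_eq_zero.1 hx).trans (sub_eq_zero.1 hx0).symm

theorem qeig (h3 : ∀ g, RR r (RR r (RR r g)) = 0) (hk : ∀ g, RR r g = 0 → ev g a = 0 → g = 0)
    {F : (I → UnitAddCircle) → UnitAddCircle} (hF : Measurable F) {c : UnitAddCircle}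
    {χ : I →₀ ℤ} (h : ∀ᵐ x ∂(hm I), F (Tf r a x) = F x + ev χ x + c) :
    ∃ g d, RR r g = χ ∧ ev g a = c ∧ ∀ᵐ x ∂(hm I), F x = ev g x + d := by
  have : ∃ g, ∫ x, E (ev g x) * conj (E (F x)) ∂(hm I) ≠ 0 := by
    by_contra hn
    push Not at hn
    obtain ⟨x, hx⟩ := (zero_of_chi cr (hm I) cr_cont cr_sep (memE hF) hn).exists
    have h2 := E_norm (F x)
    rw [show E (F x) = 0 from hx] at h2
    simp at h2
  obtain ⟨g, hg⟩ := this
  obtain ⟨h1, h2⟩ := coef a h3 hF h g hg
  obtain ⟨d, hd⟩ := qconst a h3 hk (F := fun x => F x - ev g x)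
    (hF.sub (dm_cont cr cr_cont g).measurable) (h.mono fun x hx => by
      simp only [hx, ev_Tf, h1, h2]
      abel)
  exact ⟨g, d, h1, h2, hd.mono fun x hx => by rw [← hx]; abel⟩

theorem half_ne : ZMod.toAddCircle (1 : ZMod 2) ≠ 0 := by
  rw [Ne, ZMod.toAddCircle_eq_zero]; decide

theorem erg (h3 : ∀ g, RR r (RR r (RR r g)) = 0) (hk : ∀ g, RR r g = 0 → ev g a = 0 → g = 0)
    {s : Set (I → UnitAddCircle)} (hs : MeasurableSet s)
    (h : ∀ᵐ x ∂(hm I), Tf r a x ∈ s ↔ x ∈ s) :
    (∀ᵐ x ∂(hm I), x ∈ s) ∨ ∀ᵐ x ∂(hm I), x ∉ s := by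
  classical
  obtain ⟨d, hd⟩ := qconst a h3 hk
    (F := fun z => if z ∈ s then ZMod.toAddCircle (1 : ZMod 2) else 0)
    (Measurable.ite hs measurable_const measurable_const) (h.mono fun x hx => by simp only [hx])
  have h5 := half_ne
  by_cases b : d = 0
  · exact Or.inr (hd.mono fun w hw hh => by simp_all)
  · exact Or.inl (hd.mono fun w hw => by_contra fun hh => by simp_all)

end Pool.Agent.H.MP_78c86a_lc
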