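import Mathlib
import Pool.Agent.H.MP_78c86a_lc.A

namespace Pool.Agent.H.MP_78c86a_lc

open MeasureTheory Set Filter Topology TopologicalSpace Function Pool.Agent.H.MP_86dbc5_an

variable {I : Type} {r : I → I →₀ ℤ} (a : I → UnitAddCircle) {lv : I → ℕ}

theorem distal (hl : ∀ i j, r i j ≠ 0 → lv j < lv i) (h3 : ∀ g, RR r (RR r (RR r g)) = 0)
    {x y : I → UnitAddCircle} (hxy : x ≠ y) : ∃ i, x i - y i ≠ 0 ∧ ∀ n : ℤ,
      ((Th a h3).toEquiv ^ n) x i - ((Th a h3).toEquiv ^ n) y i = x i - y i := by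
  obtain ⟨i, hi, hmin⟩ := (measure lv).wf.has_min {i | x i ≠ y i} (ne_iff.1 hxy)
  refine ⟨i, sub_ne_zero.2 hi, fun n => ?_⟩
  suffices h : ∀ j, lv j ≤ lv i →
      (((Th a h3).toEquiv ^ n) x - ((Th a h3).toEquiv ^ n) y) j = (x - y) j from h i le_rfl
  have z0 : ∀ j, lv j < lv i → (x - y) j = 0 := fun j hj =>
    sub_eq_zero.2 (by_contra fun hh => hmin j hh hj)
  induction n using Int.induction_on with
  | zero => exact fun _ _ => rfl
  | succ n ih =>
    intro j hj
    rw [add_comm, zpow_one_add, Equiv.Perm.mul_apply, Equiv.Perm.mul_apply]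
    generalize ((Th a h3).toEquiv ^ (n : ℤ)) x = u at ih ⊢
    generalize ((Th a h3).toEquiv ^ (n : ℤ)) y = v at ih ⊢
    have e : (Th a h3).toEquiv u - (Th a h3).toEquiv v = (u - v) + NN r (u - v) := by
      show Tf r a u - Tf r a v = _
      simp only [Tf, map_sub]
      abel
    rw [e, Pi.add_apply, ih j hj, NN_lv hl fun k hk => by rw [ih k (by omega), z0 k (by omega)],
      add_zero]
  | pred n ih =>
    intro j hj
    rw [show (-(n : ℤ) - 1) = -1 + -(n : ℤ) by ring, zpow_add, zpow_neg_one, Equiv.Perm.mul_apply,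
      Equiv.Perm.mul_apply]
    generalize ((Th a h3).toEquiv ^ (-n : ℤ)) x = u at ih ⊢
    generalize ((Th a h3).toEquiv ^ (-n : ℤ)) y = v at ih ⊢
    have e : (Th a h3).toEquiv⁻¹ u - (Th a h3).toEquiv⁻¹ v =
        (u - v) - NN r (u - v) + NN r (NN r (u - v)) := by
      show ((u - a) - NN r (u - a) + NN r (NN r (u - a))) -
        ((v - a) - NN r (v - a) + NN r (NN r (v - a))) = _
      simp only [map_sub]
      abel
    have n1 : ∀ j, lv j ≤ lv i → NN r (u - v) j = 0 := fun j hj =>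
      NN_lv hl fun k hk => by rw [ih k (by omega), z0 k (by omega)]
    rw [e, Pi.add_apply, Pi.sub_apply, ih j hj, n1 j hj, NN_lv hl fun k hk => n1 k (by omega),
      add_zero, sub_zero]

theorem it_add (hl : ∀ i j, r i j ≠ 0 → lv j < lv i) {k : ℕ} {z : I → UnitAddCircle}
    (hz : ∀ j, lv j < k → z j = 0) (x : I → UnitAddCircle) (n : ℕ) :
    ∀ j, lv j ≤ k → ((Tf r a)^[n] (x + z) - (Tf r a)^[n] x) j = z j := by
  induction n with
  | zero => simp
  | succ n ih =>
    intro j hj
    rw [iterate_succ_apply', iterate_succ_apply']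
    generalize (Tf r a)^[n] (x + z) = u at ih ⊢
    generalize (Tf r a)^[n] x = v at ih ⊢
    have e : Tf r a u - Tf r a v = (u - v) + NN r (u - v) := by
      simp only [Tf, map_sub]
      abel
    rw [e, Pi.add_apply, ih j hj, NN_lv hl fun l hl => by rw [ih l (by omega), hz l (by omega)],
      add_zero]

variable [Countable I]

theorem trans_pt (h3 : ∀ g, RR r (RR r (RR r g)) = 0)
    (hk : ∀ g, RR r g = 0 → ev g a = 0 → g = 0) :
    ∃ x, Dense (range fun n : ℕ => (Tf r a)^[n] x) := by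
  have hT := Tf_mp a h3
  have : ∀ U ∈ countableBasis (I → UnitAddCircle), ∀ᵐ x ∂(hm I), ∃ n, (Tf r a)^[n] x ∈ U := by
    intro U hU
    have oU := isOpen_of_mem_countableBasis hU
    have mV : MeasurableSet (⋃ n, (Tf r a)^[n] ⁻¹' U) := MeasurableSet.iUnion fun n =>
      (hT.iterate n).measurable oU.measurableSet
    have e := ae_eq_of_subset_of_measure_ge (μ := hm I)
      (s := Tf r a ⁻¹' ⋃ n, (Tf r a)^[n] ⁻¹' U) (t := ⋃ n, (Tf r a)^[n] ⁻¹' U)
      (fun x hx => by
        obtain ⟨n, hn⟩ := mem_iUnion.1 hx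
        exact mem_iUnion.2 ⟨n + 1, hn⟩)
      (hT.measure_preimage mV.nullMeasurableSet).ge (hT.measurable mV).nullMeasurableSet
      (measure_ne_top _ _)
    rcases erg a h3 hk mV (e.mono fun x hx => Iff.of_eq hx) with h | h
    · exact h.mono fun x hx => mem_iUnion.1 hx
    · refine absurd (measure_mono_null (fun x hx hh => hh (mem_iUnion.2 ⟨0, hx⟩)) (ae_iff.1 h))
        (oU.measure_ne_zero _ (nonempty_of_mem_countableBasis hU))
  obtain ⟨x, hx⟩ := ((ae_ball_iff (countable_countableBasis _)).2 this).exists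
  refine ⟨x, (isBasis_countableBasis _).dense_iff.2 fun U hU _ => ?_⟩
  obtain ⟨n, hn⟩ := hx U hU
  exact ⟨_, hn, n, rfl⟩

theorem minimal (hl : ∀ i j, r i j ≠ 0 → lv j < lv i) (hl3 : ∀ i, lv i < 3)
    (hk : ∀ g, RR r g = 0 → ev g a = 0 → g = 0) (x : I → UnitAddCircle) :
    Dense (range fun n : ℕ => (Tf r a)^[n] x) := by
  obtain ⟨x0, hx0⟩ := trans_pt a (RR3 hl hl3) hk
  set O := closure (range fun n : ℕ => (Tf r a)^[n] x) with hO
  have inv : ∀ n, MapsTo (Tf r a)^[n] O O := fun n =>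
    MapsTo.closure (by rintro _ ⟨m, rfl⟩; exact ⟨n + m, iterate_add_apply _ _ _ _⟩)
      ((Tf_cont r a).iterate n)
  have claim : ∀ k (w : I → UnitAddCircle), ∃ y ∈ O, ∀ j, lv j < k → y j = w j := fun k => by
    induction k with
    | zero => exact fun w => ⟨x, subset_closure ⟨0, rfl⟩, fun j hj => absurd hj (Nat.not_lt_zero _)⟩
    | succ k ih =>
      obtain ⟨y, hy, hy2⟩ := ih x0
      have cS : IsClosed (Prod.snd '' {p : (I → UnitAddCircle) × (I → UnitAddCircle) |
          p.1 ∈ O ∧ ∀ j, lv j < k + 1 → p.1 j = p.2 j}) := by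
        refine (IsClosed.isCompact ?_).image continuous_snd |>.isClosed
        simp only [ofPred_and, ofPred_forall]
        exact (isClosed_closure.preimage continuous_fst).inter (isClosed_iInter fun j =>
          isClosed_iInter fun _ => isClosed_eq (by fun_prop) (by fun_prop))
      have dS := (Homeomorph.addRight (y - x0)).surjective.denseRange.dense_image
        (Homeomorph.addRight (y - x0)).continuous hx0
      intro w
      obtain ⟨p, hp, rfl⟩ := cS.closure_subset_iff.2 (by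
        rintro _ ⟨_, ⟨n, rfl⟩, rfl⟩
        refine ⟨((Tf r a)^[n] y, _), ⟨inv n hy, fun j hj => ?_⟩, rfl⟩
        have := it_add a hl (z := y - x0) (fun j hj => sub_eq_zero.2 (hy2 j hj)) x0 n j (by omega)
        rw [add_sub_cancel, Pi.sub_apply, sub_eq_iff_eq_add'] at this
        exact this) (dS w)
      exact ⟨p.1, hp⟩
  intro w
  obtain ⟨y, hy, hy2⟩ := claim 3 w
  rwa [show w = y from funext fun j => (hy2 j (hl3 j)).symm]

end Pool.Agent.H.MP_78c86a_lc
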