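import Mathlib
import Pool.Agent.H.MP_78c86a_lc.B
import Pool.Agent.H.MP_86dbc5_an.F

namespace Pool.Agent.H.MP_78c86a_lc

open MeasureTheory Set Filter Topology TopologicalSpace Function Pool.Agent.H.MP_86dbc5_an
open Finsupp (single)

theorem pivot {I : Type} {r : I → I →₀ ℤ} (P : I → Prop) (pv : I → I) (d : I → ℕ)
    (h1 : ∀ i, P i → r i (pv i) ≠ 0)
    (h2 : ∀ i j, P i → j ≠ i → r j (pv i) ≠ 0 → P j ∧ d i < d j) {γ : I →₀ ℤ}
    (h : RR r γ = 0) (i : I) (hi : P i) : γ i = 0 := by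
  classical
  by_contra hn
  obtain ⟨k, hk, hmax⟩ := (γ.support.filter P).exists_max_image d
    ⟨i, Finset.mem_filter.2 ⟨Finsupp.mem_support_iff.2 hn, hi⟩⟩
  obtain ⟨k1, k2⟩ := Finset.mem_filter.1 hk
  have := DFunLike.congr_fun h (pv k)
  rw [RR, Finsupp.linearCombination_apply, Finsupp.sum, Finsupp.finset_sum_apply,
    Finset.sum_eq_single k] at this
  · simp only [Finsupp.smul_apply, smul_eq_mul, Finsupp.coe_zero, Pi.zero_apply,
      mul_eq_zero] at this
    exact this.elim (Finsupp.mem_support_iff.1 k1) (h1 k k2)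
  · intro j hj hjk
    by_contra hh
    obtain ⟨a, b⟩ := h2 k j k2 hjk fun e => hh (by simp [e])
    exact absurd (hmax j (Finset.mem_filter.2 ⟨hj, a⟩)) (not_le.2 b)
  · exact fun hh => absurd k1 hh

theorem conj_of {I : Type} {r0 r1 r' : I → I →₀ ℤ} {a a' : I → UnitAddCircle}
    (h1 : ∀ i, r1 i + RR r1 (r' i) = r0 i + RR r' (r0 i)) (h2 : ∀ i, ev (r' i) a = ev (r0 i) a')
    (x : I → UnitAddCircle) : Tf r' a' (Tf r1 a x) = Tf r0 a (Tf r' a' x) := by
  funext i
  have := congrArg (fun g => ev g x) (h1 i)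
  simp only [ev_add] at this
  rw [Tf_apply, Tf_apply, Tf_apply r0, Tf_apply, ev_Tf, ev_Tf, h2]
  rw [← sub_eq_zero] at this ⊢
  rw [← this]
  abel

/-- the index set -/
inductive J
  | e (s : List ℕ)
  | f (n : ℕ)
  | u (i : ℕ) (t : List ℕ)
  | m (n : ℕ)
  | g (n : ℕ)
  deriving DecidableEq, Countable

open Classical in
/-- the cocycles -/
noncomputable def rr (C : List ℕ → Prop) (ε : ℤ) : J → J →₀ ℤ
  | .e _ => 0
  | .f _ => 0
  | .u i t => if C (i :: t) then single (.e (i :: t)) 2 - single (.e t) 1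
      else single (.e (i :: t)) 1
  | .m n => single (.f n) 1
  | .g 0 => single (.m 0) 1 + single (.e []) ε
  | .g (n + 1) => single (.m (n + 1)) 2 - single (.m n) 1

/-- the levels -/
def lv : J → ℕ
  | .e _ => 0
  | .f _ => 0
  | .u _ _ => 1
  | .m _ => 1
  | .g _ => 2

theorem lv3 (i : J) : lv i < 3 := by cases i <;> simp [lv]

theorem rr_lv (C : List ℕ → Prop) (ε : ℤ) (i j : J) (h : rr C ε i j ≠ 0) : lv j < lv i := by
  rcases i with s | n | ⟨i, t⟩ | n | _ | n <;> simp only [rr] at h <;> (try split_ifs at h) <;>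
    cases j <;> simp_all [lv]

theorem rr3 (C : List ℕ → Prop) (ε : ℤ) (g : J →₀ ℤ) :
    RR (rr C ε) (RR (rr C ε) (RR (rr C ε) g)) = 0 := RR3 (rr_lv C ε) lv3 g

theorem rr_ker {C : List ℕ → Prop} {ε : ℤ} {γ : J →₀ ℤ} (h : RR (rr C ε) γ = 0) (i : J)
    (hi : lv i ≠ 0) : γ i = 0 := by
  refine pivot (fun i => lv i ≠ 0) (fun i => match i with
    | .u i t => .e (i :: t)
    | .m n => .f n
    | .g n => .m n
    | i => i) (fun i => match i with
    | .u _ t => t.length
    | .g n => n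
    | _ => 0) (fun i hi => ?_) (fun i j hi hj h => ?_) h i hi
  · rcases i with s | n | ⟨i, t⟩ | n | _ | n <;> simp only [rr] <;> (try split_ifs) <;>
      simp_all [lv]
  · rcases i with s | n | ⟨i, t⟩ | n | n <;> rcases j with s' | n' | ⟨i', t'⟩ | n' | _ | n' <;>
      simp only [rr] at h <;> (try split_ifs at h) <;> simp_all [lv, Finsupp.single_apply]

/-- an injective code -/
noncomputable def enc : J → ℕ := (Countable.exists_injective_nat J).choose

theorem enc_inj : Injective enc := (Countable.exists_injective_nat J).choose_spec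

/-- the rotation vector -/
noncomputable def aa (i : J) : UnitAddCircle :=
  if lv i = 0 then ((th fun _ => enc i : ℝ) : UnitAddCircle) else 0

theorem rr_hk (C : List ℕ → Prop) (ε : ℤ) (γ : J →₀ ℤ) (h : RR (rr C ε) γ = 0)
    (h2 : ev γ aa = 0) : γ = 0 := by
  have e3 : ev γ aa = ((∑ o ∈ γ.support, γ o * th (fun _ => enc o) : ℝ) : UnitAddCircle) := by
    rw [dm_apply, QuotientAddGroup.mk_sum]
    refine Finset.sum_congr rfl fun o ho => ?_
    rw [← zsmul_eq_mul, AddCircle.coe_zsmul]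
    congr 1
    exact if_pos (by_contra fun hh => Finsupp.mem_support_iff.1 ho (rr_ker h o hh))
  rw [e3, AddCircle.coe_eq_zero_iff] at h2
  obtain ⟨n, hn⟩ := h2
  ext o
  by_contra ho
  have ho' := Finsupp.mem_support_iff.2 ho
  rw [← Finset.add_sum_erase _ _ ho'] at hn
  refine ho (th_indep (γ.support.erase o) (fun o _ => enc o) γ (fun _ => enc o) _
    (fun p hp hh => (Finset.mem_erase.1 hp).1 (enc_inj (congrFun hh 0))) (2 * n) ?_)
  rw [← hn]
  simp

theorem fwd {C : List ℕ → Prop} {b : ℕ → ℕ} (hb : ∀ n, C (nd b (n + 1))) :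
    ∃ Φ : (J → UnitAddCircle) ≃ₜ (J → UnitAddCircle), MeasurePreserving Φ (hm J) (hm J) ∧
      ∀ x, Φ (Tf (rr C 1) aa x) = Tf (rr C 0) aa (Φ x) := by
  obtain ⟨r', hr'⟩ : ∃ r' : J → J →₀ ℤ, r' = fun i => match i with
    | .m n => single (.e (nd b n)) 1
    | .g (n + 1) => single (.u (b n) (nd b n)) 1
    | _ => 0 := ⟨_, rfl⟩
  obtain ⟨a', ha'⟩ : ∃ a' : J → UnitAddCircle, a' = fun i => match i with
    | .f n => aa (.e (nd b n))
    | _ => 0 := ⟨_, rfl⟩
  have hl : ∀ i j, r' i j ≠ 0 → lv j < lv i := fun i j h => by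
    rcases i with s | n | ⟨i, t⟩ | n | _ | n <;> cases j <;> simp_all [lv]
  refine ⟨Th a' (RR3 hl lv3), Tf_mp a' (RR3 hl lv3), conj_of (fun i => ?_) fun i => ?_⟩
  · have hb' : ∀ n, C (b n :: nd b n) := hb
    rcases i with s | n | ⟨i, t⟩ | n | _ | n <;> simp only [rr, hr'] <;> (try split_ifs) <;>
      simp [RR, rr, hb', nd]
  · rcases i with s | n | ⟨i, t⟩ | n | _ | n <;> simp only [rr, hr', ha'] <;> (try split_ifs) <;>
      simp [ev_zero, ev_single, ev_sub, ev_add, aa, lv]

open Classical in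
/-- weights along the tree -/
noncomputable def hv (C : List ℕ → Prop) (t : List ℕ) : List ℕ → ℚ
  | [] => if [] = t then 1 else 0
  | i :: s => if i :: s = t then 1 else if C (i :: s) then hv C t s / 2 else 0

theorem hv_lt {C : List ℕ → Prop} {t : List ℕ} : ∀ s, s.length < t.length → hv C t s = 0
  | [], h => if_neg fun e => by simp [← e] at h
  | i :: s, h => by
    rw [hv, if_neg fun e => by simp [← e] at h, hv_lt s (by simp at h; omega)]
    simp

open Classical in
theorem hv_rec (C : List ℕ → Prop) (t : List ℕ) (F : Finset ℕ) : ∀ s : List ℕ, s.toFinset ⊆ F →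
    hv C t s = (if s = t then 1 else 0) +
      (∑ i ∈ F, if C (i :: t) then hv C (i :: t) s else 0) / 2
  | [], _ => by simp [hv]
  | j :: s, h => by
    rw [List.toFinset_cons, Finset.insert_subset_iff] at h
    by_cases e : j :: s = t
    · rw [hv, if_pos e, if_pos e, Finset.sum_eq_zero fun i _ => by
        rw [hv_lt _ (by simp [← e]), ite_self]]
      simp
    · rw [hv, if_neg e, if_neg e, zero_add, hv_rec C t F s h.2]
      by_cases e2 : s = t
      · subst e2
        rw [if_pos rfl, Finset.sum_eq_zero fun i _ => by rw [hv_lt _ (by simp), ite_self],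
          Finset.sum_eq_single j]
        · split_ifs <;> simp [hv]
        · intro i _ hi
          rw [hv, if_neg (c := j :: s = i :: s) (by simpa using hi.symm), hv_lt _ (by simp)]
          simp
        · exact fun hh => absurd h.1 hh
      · simp only [hv, List.cons.injEq, e2, and_false, if_false, zero_add]
        split_ifs
        · rw [Finset.sum_div, Finset.sum_div, Finset.sum_div]
          exact Finset.sum_congr rfl fun i _ => by split_ifs <;> simp
        · simp

/-- the functionals -/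
noncomputable def kk (C : List ℕ → Prop) (t : List ℕ) : (J →₀ ℤ) →ₗ[ℤ] ℚ :=
  Finsupp.linearCombination ℤ fun i => match i with
    | .e s => hv C t s
    | _ => 0

/-- the dyadic functional -/
noncomputable def pp : (J →₀ ℤ) →ₗ[ℤ] ℚ :=
  Finsupp.linearCombination ℤ fun i => match i with
    | .m n => (1 / 2) ^ n
    | _ => 0

open Classical in
theorem kk_rec (C : List ℕ → Prop) (t : List ℕ) (φ : J →₀ ℤ) : ∀ᶠ F : Finset ℕ in atTop,
    kk C t φ = φ (.e t) + (∑ i ∈ F, if C (i :: t) then kk C (i :: t) φ else 0) / 2 := by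
  induction φ using Finsupp.induction_linear with
  | zero => simp
  | add f g h1 h2 =>
    filter_upwards [h1, h2] with F e1 e2
    have : ∀ i, (if C (i :: t) then kk C (i :: t) (f + g) else 0) =
        (if C (i :: t) then kk C (i :: t) f else 0) + if C (i :: t) then kk C (i :: t) g else 0 :=
      fun i => by split_ifs <;> simp
    simp only [this, Finset.sum_add_distrib]
    rw [map_add, e1, e2, Finsupp.add_apply]
    push_cast
    ring
  | single i n =>
    cases i with
    | e s =>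
      filter_upwards [eventually_ge_atTop s.toFinset] with F hF
      simp only [kk, Finsupp.linearCombination_single, zsmul_eq_mul, Finsupp.single_apply,
        J.e.injEq]
      rw [hv_rec C t F s hF, mul_add, ← mul_div_assoc, Finset.mul_sum]
      congr 1
      · split_ifs <;> simp
      · simp
    | _ => simp [kk]

theorem kk_even {C : List ℕ → Prop} {i : ℕ} {t : List ℕ} (h : C (i :: t)) (γ : J →₀ ℤ) :
    ∃ z : ℤ, kk C (i :: t) (RR (rr C 1) γ) = 2 * z := by
  induction γ using Finsupp.induction_linear with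
  | zero => exact ⟨0, by simp⟩
  | add f g h1 h2 =>
    obtain ⟨z, hz⟩ := h1
    obtain ⟨w, hw⟩ := h2
    exact ⟨z + w, by rw [map_add, map_add, hz, hw]; push_cast; ring⟩
  | single j n =>
    rw [RR, Finsupp.linearCombination_single, map_smul]
    suffices h : ∃ z : ℤ, kk C (i :: t) (rr C 1 j) = 2 * z by
      obtain ⟨z, hz⟩ := h
      exact ⟨n * z, by rw [hz, zsmul_eq_mul]; push_cast; ring⟩
    rcases j with s | n | ⟨j, s⟩ | n | _ | n
    · exact ⟨0, by simp [rr]⟩
    · exact ⟨0, by simp [rr]⟩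
    · by_cases e : j :: s = i :: t
      · refine ⟨1, ?_⟩
        simp only [rr, e, h, if_true, kk, map_sub, Finsupp.linearCombination_single, hv]
        rw [hv_lt _ (by simp [← e])]
        simp
      · refine ⟨0, ?_⟩
        simp only [rr]
        split_ifs with c
        · simp only [kk, map_sub, Finsupp.linearCombination_single, hv, e, c, if_true, if_false]
          simp only [zsmul_eq_mul]
          push_cast
          ring
        · simp only [kk, Finsupp.linearCombination_single, hv, e, c, if_false]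
          simp
    · exact ⟨0, by simp [rr, kk]⟩
    · exact ⟨0, by simp [rr, kk, hv]⟩
    · exact ⟨0, by simp [rr, kk]⟩

theorem kk_nil (C : List ℕ → Prop) (γ : J →₀ ℤ) :
    kk C [] (RR (rr C 1) γ) = pp (RR (rr C 1) γ) := by
  induction γ using Finsupp.induction_linear with
  | zero => simp
  | add f g h1 h2 => simp only [map_add, h1, h2]
  | single j n =>
    rw [RR, Finsupp.linearCombination_single, map_smul, map_smul]
    congr 1
    rcases j with s | n | ⟨j, s⟩ | n | _ | n <;> simp only [rr] <;> (try split_ifs with c) <;>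
      simp [kk, pp, hv, *] <;> ring

theorem chain {C : List ℕ → Prop} {φ : ℕ → J →₀ ℤ}
    (h1 : ∀ n, RR (rr C 1) (φ n) = single (.f n) 1) (h2 : ∃ γ, RR (rr C 1) γ = φ 0)
    (h3 : ∀ n, ∃ γ, RR (rr C 1) γ = (2 : ℤ) • φ (n + 1) - φ n) :
    ∃ (t : ℕ → List ℕ) (i : ℕ → ℕ), ∀ n, t (n + 1) = i n :: t n ∧ C (t (n + 1)) := by
  have p1 : ∀ n, pp (φ n) = (1 / 2) ^ n := fun n => by
    have : RR (rr C 1) (φ n - single (.m n) 1) = 0 := by
      rw [map_sub, h1]
      simp [RR, rr]
    have h4 : pp (φ n - single (.m n) 1) = 0 := by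
      rw [pp, Finsupp.linearCombination_apply, Finsupp.sum]
      refine Finset.sum_eq_zero fun j hj => ?_
      cases j with
      | m k => exact absurd (rr_ker this _ (by simp [lv])) (Finsupp.mem_support_iff.1 hj)
      | _ => simp
    rw [map_sub, sub_eq_zero] at h4
    rw [h4]
    simp [pp]
  have p2 : ∀ n, kk C [] (φ n) = pp (φ n) := fun n => by
    induction n with
    | zero =>
      obtain ⟨γ, e⟩ := h2
      rw [← e, kk_nil]
    | succ n ih =>
      obtain ⟨γ, e⟩ := h3 n
      have := kk_nil C γ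
      simp only [e, map_sub, map_smul, ih, zsmul_eq_mul] at this
      push_cast at this
      linarith
  have step : ∀ t, (∃ n, ∀ z : ℤ, kk C t (φ n) ≠ z) →
      ∃ i, C (i :: t) ∧ ∃ n, ∀ z : ℤ, kk C (i :: t) (φ n) ≠ z := fun t ⟨n, hn⟩ => by
    classical
    by_contra hc
    push Not at hc
    obtain ⟨F, hF⟩ := (kk_rec C t (φ n)).exists
    have : ∀ i, ∃ z : ℤ, (if C (i :: t) then kk C (i :: t) (φ n) else 0) = 2 * z := fun i => by
      split_ifs with c
      · obtain ⟨γ, e⟩ := h3 n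
        obtain ⟨z, hz⟩ := kk_even c γ
        obtain ⟨w, hw⟩ := hc i c (n + 1)
        simp only [e, map_sub, map_smul, hw, zsmul_eq_mul] at hz
        refine ⟨w - z, ?_⟩
        push_cast at hz ⊢
        linarith
      · exact ⟨0, by simp⟩
    choose z hz using this
    refine hn (φ n (.e t) + ∑ i ∈ F, z i) ?_
    simp only [hF, hz, ← Finset.mul_sum]
    push_cast
    ring
  choose! i hi1 hi2 using step
  obtain ⟨t, t0, ht⟩ : ∃ t : ℕ → List ℕ, t 0 = [] ∧ ∀ n, t (n + 1) = i (t n) :: t n :=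
    ⟨fun n => Nat.rec [] (fun _ u => i u :: u) n, rfl, fun _ => rfl⟩
  have act : ∀ k, ∃ n, ∀ z : ℤ, kk C (t k) (φ n) ≠ z := fun k => by
    induction k with
    | zero =>
      refine ⟨1, fun z hz => ?_⟩
      rw [t0, p2, p1] at hz
      have : (2 * z : ℚ) = 1 := by rw [← hz]; norm_num
      have : 2 * z = 1 := by exact_mod_cast this
      omega
    | succ k ih => rw [ht]; exact hi2 _ ih
  exact ⟨t, fun n => i (t n), fun n => ⟨ht n, by rw [ht]; exact hi1 _ (act n)⟩⟩

theorem bwd {C : List ℕ → Prop} {Φ : (J → UnitAddCircle) → J → UnitAddCircle}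
    (hΦ : Measurable Φ) (h : ∀ᵐ x ∂(hm J), Φ (Tf (rr C 1) aa x) = Tf (rr C 0) aa (Φ x)) :
    ∃ (t : ℕ → List ℕ) (i : ℕ → ℕ), ∀ n, t (n + 1) = i n :: t n ∧ C (t (n + 1)) := by
  have q : ∀ (i : J) (χ : J →₀ ℤ) (c : UnitAddCircle),
      (∀ᵐ x ∂(hm J), ev (rr C 0 i) (Φ x) + aa i = ev χ x + c) →
      ∃ g d, RR (rr C 1) g = χ ∧ ev g aa = c ∧ ∀ᵐ x ∂(hm J), Φ x i = ev g x + d :=
    fun i χ c hc => qeig aa (rr3 C 1) (rr_hk C 1) (F := fun x => Φ x i)
      ((measurable_pi_apply i).comp hΦ) (by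
        filter_upwards [h, hc] with x h1 h2
        rw [h1, Tf_apply, add_assoc, h2, add_assoc])
  have qf : ∀ n, ∃ d, ∀ᵐ x ∂(hm J), Φ x (.f n) = ev (single (.f n) 1) x + d := fun n => by
    obtain ⟨g, d, h1, h2, h3⟩ := q (.f n) 0 (aa (.f n)) (by simp [rr, ev_zero])
    have := rr_hk C 1 (g - single (.f n) 1) (by rw [map_sub, h1]; simp [RR, rr])
      (by rw [ev_sub, h2, ev_single, one_smul, sub_self])
    exact ⟨d, by rwa [← sub_eq_zero.1 this]⟩
  have qm : ∀ n, ∃ g d, RR (rr C 1) g = single (.f n) 1 ∧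
      ∀ᵐ x ∂(hm J), Φ x (.m n) = ev g x + d := fun n => by
    obtain ⟨d, hd⟩ := qf n
    obtain ⟨g, d', h1, -, h3⟩ := q (.m n) (single (.f n) 1) d (hd.mono fun x hx => by
      rw [← hx]
      simp [rr, ev_single, aa, lv])
    exact ⟨g, d', h1, h3⟩
  choose φ d h1 h2 using qm
  refine chain h1 ?_ fun n => ?_
  · obtain ⟨g, -, h3, -⟩ := q (.g 0) (φ 0) (d 0) ((h2 0).mono fun x hx => by
      rw [← hx]
      simp [rr, ev_single, aa, lv])
    exact ⟨g, h3⟩
  · obtain ⟨g, -, h3, -⟩ := q (.g (n + 1)) ((2 : ℤ) • φ (n + 1) - φ n)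
      ((2 : ℤ) • d (n + 1) - d n) (by
        filter_upwards [h2 n, h2 (n + 1)] with x e1 e2
        simp only [rr, ev_sub, ev_single, ev_smul, e1, e2, aa, lv, smul_add, one_smul]
        simp only [OfNat.ofNat_ne_zero, if_false]
        abel)
    exact ⟨g, h3⟩

theorem jcont {C : (ℕ → ℕ) → List ℕ → Prop} (hC : ∀ s, IsLocallyConstant fun y => C y s)
    (ε : ℤ) : Continuous fun p : (ℕ → ℕ) × (J → UnitAddCircle) => Tf (rr (C p.1) ε) aa p.2 := by
  refine continuous_pi fun i => continuous_iff_continuousAt.2 fun p => ?_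
  have c : Continuous fun q : (ℕ → ℕ) × (J → UnitAddCircle) => Tf (rr (C p.1) ε) aa q.2 i :=
    (continuous_apply i).comp ((Tf_cont _ _).comp continuous_snd)
  refine c.continuousAt.congr ?_
  have : ∀ᶠ y in 𝓝 p.1, rr (C p.1) ε i = rr (C y) ε i := by
    rcases i with s | n | ⟨i, t⟩ | n | _ | n
    any_goals exact Eventually.of_forall fun _ => rfl
    filter_upwards [(hC (i :: t)).eventually_eq p.1] with y hy
    simp only [rr]
    rw [hy]
  filter_upwards [(continuous_fst.tendsto p).eventually this] with q hq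
  rw [Tf_apply, Tf_apply, hq]

instance : PolishSpace (ℕ → Bool) := ⟨⟩

theorem nonborel : ∃ S : Set (ℕ → Bool), AnalyticSet S ∧ ¬ MeasurableSet S := by
  classical
  obtain ⟨B, hB, -, hb⟩ := TopologicalSpace.exists_countable_basis ((ℕ → ℕ) × (ℕ → Bool))
  obtain ⟨s, hs, -⟩ := hb.exists_subset_of_mem_open (a := default) (mem_univ _) isOpen_univ
  obtain ⟨b, rfl⟩ := hB.exists_eq_range ⟨s, hs⟩
  have m : MeasurableSet {q : (ℕ → ℕ) × (ℕ → Bool) | ∀ n, q.2 n = true → q ∉ b n} :=
    measurableSet_setOfPred.2 (.forall fun n => (measurableSet_setOfPred.1 (measurableSet_eq_fun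
      (by fun_prop) measurable_const)).imp
        (measurableSet_setOfPred.1 (hb.isOpen ⟨n, rfl⟩).measurableSet).not)
  refine ⟨_, m.analyticSet_image measurable_snd, fun h => ?_⟩
  obtain ⟨K, hK, e⟩ : ∃ K : Set ((ℕ → ℕ) × (ℕ → Bool)), IsClosed K ∧ Prod.snd '' K =
      (Prod.snd '' {q : (ℕ → ℕ) × (ℕ → Bool) | ∀ n, q.2 n = true → q ∉ b n})ᶜ := by
    have := h.compl.analyticSet
    rw [AnalyticSet] at this
    rcases this with e | ⟨f, hf, e⟩
    · exact ⟨∅, isClosed_empty, by rw [e, image_empty]⟩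
    · exact ⟨{q | f q.1 = q.2}, isClosed_eq (by fun_prop) continuous_snd, e ▸ by ext; simp⟩
  have k : ∀ q : (ℕ → ℕ) × (ℕ → Bool), q ∈ K ↔ ∀ n, decide (b n ⊆ Kᶜ) = true → q ∉ b n :=
    fun q => ⟨fun hq n hn hq' => of_decide_eq_true hn hq' hq, fun h => by
      by_contra hq
      obtain ⟨_, ⟨n, rfl⟩, h1, h2⟩ := hb.exists_subset_of_mem_open hq hK.isOpen_compl
      exact h n (decide_eq_true h2) h1⟩
  refine iff_not_self (Iff.trans ?_ (Set.ext_iff.1 e fun n => decide (b n ⊆ Kᶜ)))
  exact exists_congr fun q => and_congr_left fun hq => by rw [k, mem_ofPred_eq, hq]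

theorem core : ∃ (C : (ℕ → ℕ) → List ℕ → Prop) (B : Set (ℕ → ℕ)), ¬ MeasurableSet B ∧
    (∀ s, IsLocallyConstant fun y => C y s) ∧
    (∀ y ∈ B, ∃ Φ : (J → UnitAddCircle) ≃ₜ (J → UnitAddCircle),
      MeasurePreserving Φ (hm J) (hm J) ∧
        ∀ x, Φ (Tf (rr (C y) 1) aa x) = Tf (rr (C y) 0) aa (Φ x)) ∧
    ∀ y (Φ : (J → UnitAddCircle) → J → UnitAddCircle), Measurable Φ →
      (∀ᵐ x ∂(hm J), Φ (Tf (rr (C y) 1) aa x) = Tf (rr (C y) 0) aa (Φ x)) → y ∈ B := by
  obtain ⟨S, hS, hS2⟩ := nonborel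
  have c : Continuous fun (x : ℕ → Bool) n => (x n).toNat := continuous_pi fun n =>
    (continuous_of_discreteTopology (f := Bool.toNat)).comp (continuous_apply n)
  have i : Injective fun (x : ℕ → Bool) n => (x n).toNat := fun x y h => funext fun n => by
    have : (x n).toNat = (y n).toNat := congrFun h n
    revert this
    cases x n <;> cases y n <;> simp
  obtain ⟨C, c1, c2, c3⟩ := tree (hS.image_of_continuous c)
  refine ⟨C, (fun (x : ℕ → Bool) n => (x n).toNat) '' S, fun h => hS2 ?_, c1, fun y hy => ?_, fun y Φ h1 h2 => ?_⟩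
  · simpa only [preimage_image_eq _ i] using c.measurable h
  · obtain ⟨b, hb⟩ := c2 y hy
    exact fwd hb
  · obtain ⟨t, i, ht⟩ := bwd h1 h2
    exact c3 y t i ht

end Pool.Agent.H.MP_78c86a_lc
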