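import Mathlib

namespace Pool.Agent.H.MP_78c86a_lc

open MeasureTheory ProbabilityTheory TopologicalSpace

variable {X : Type}

/-- inclusion of sigma-algebras modulo null sets -/
def LeAe (𝓐 𝓑 : MeasurableSpace X) {mX : MeasurableSpace X} (μ : Measure X) : Prop :=
  ∀ A, MeasurableSet[𝓐] A → ∃ B, MeasurableSet[𝓑] B ∧ A =ᵐ[μ] B

/-- equality of sigma-algebras modulo null sets -/
def EqAe (𝓐 𝓑 : MeasurableSpace X) {mX : MeasurableSpace X} (μ : Measure X) : Prop :=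
  LeAe 𝓐 𝓑 μ ∧ LeAe 𝓑 𝓐 μ

/-- the factor `𝓩` is an isometric extension of the factor `𝓨`: it is the skew product of `𝓨`
with a homogeneous space `M` of a compact metrizable group `K` (written additively, not assumed
commutative) by a cocycle `ρ`, with the product of the measure on `𝓨` and the invariant measure -/
def IsoExt (𝓨 𝓩 : MeasurableSpace X) {mX : MeasurableSpace X} (μ : Measure X) (T : X → X) :
    Prop :=
  ∃ (K M : Type) (_ : AddGroup K) (_ : TopologicalSpace K) (_ : IsTopologicalAddGroup K)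
    (_ : CompactSpace K) (_ : MetrizableSpace K) (mK : MeasurableSpace K) (_ : BorelSpace K)
    (_ : TopologicalSpace M) (_ : MetrizableSpace M) (mM : MeasurableSpace M) (_ : BorelSpace M)
    (_ : AddAction K M) (_ : ContinuousVAdd K M) (_ : AddAction.IsPretransitive K M)
    (ρ : X → K) (κ : X → M), Measurable[𝓨, mK] ρ ∧ Measurable[mX, mM] κ ∧
      (∀ᵐ x ∂μ, κ (T x) = ρ x +ᵥ κ x) ∧
      (∀ k : K, (μ.map κ).map (fun p => k +ᵥ p) = μ.map κ) ∧
      Indep 𝓨 (mM.comap κ) μ ∧ EqAe 𝓩 (𝓨 ⊔ mM.comap κ) μ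

/-- measure distal: a transfinite tower of factors (invariant sub-sigma-algebras) -/
def MDistal {mX : MeasurableSpace X} (μ : Measure X) (T : X → X) : Prop :=
  ∃ (η : Ordinal.{0}) (𝓧 : Ordinal.{0} → MeasurableSpace X),
    (∀ α ≤ η, 𝓧 α ≤ mX ∧ EqAe ((𝓧 α).comap T) (𝓧 α) μ) ∧ EqAe (𝓧 0) ⊥ μ ∧ EqAe (𝓧 η) mX μ ∧
    (∀ α < η, IsoExt (𝓧 α) (𝓧 (α + 1)) μ T) ∧
    ∀ α ≤ η, Order.IsSuccLimit α → EqAe (𝓧 α) (⨆ β < α, 𝓧 β) μ

end Pool.Agent.H.MP_78c86a_lc
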