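import Mathlib
import Pool.Agent.H.MP_78c86a_lc.C
import Pool.Agent.H.MP_78c86a_lc.Defs
import Pool.Agent.H.MP_1b52a3_lc.B

namespace Pool.Agent.H.MP_78c86a_lc

open MeasureTheory Set Filter Topology TopologicalSpace Function Pool.Agent.H.MP_86dbc5_an
  ProbabilityTheory Pool.Agent.H.MP_1b52a3_lc

theorem leAe_of {X Y Z : Type} {mY : MeasurableSpace Y} {mZ : MeasurableSpace Z}
    {mX : MeasurableSpace X} {μ : Measure X} {φ : X → Y} {ψ : X → Z} {Ψ : Z → Y}
    (hΨ : Measurable Ψ) (h : ∀ᵐ x ∂μ, φ x = Ψ (ψ x)) : LeAe (mY.comap φ) (mZ.comap ψ) μ := by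
  rintro _ ⟨B, hB, rfl⟩
  exact ⟨_, ⟨_, hΨ hB, rfl⟩, h.mono fun x hx => congrArg (· ∈ B) hx⟩

variable {I : Type} {r : I → I →₀ ℤ} (a : I → UnitAddCircle) {lv : I → ℕ}

/-- restriction -/
def rs (P : I → Prop) : (I → UnitAddCircle) →+ ({i // P i} → UnitAddCircle) :=
  AddMonoidHom.mk' (fun x i => x i) fun _ _ => rfl

open Classical in
/-- extension by zero -/
noncomputable def xt (P : I → Prop) (z : {i // P i} → UnitAddCircle) (i : I) : UnitAddCircle :=
  if h : P i then z ⟨i, h⟩ else 0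

theorem rs_cont (P : I → Prop) : Continuous (rs P) := continuous_pi fun i => continuous_apply i.1

theorem rs_meas (P : I → Prop) : Measurable (rs P) :=
  measurable_pi_lambda _ fun i => measurable_pi_apply i.1

theorem xt_meas (P : I → Prop) : Measurable (xt P) := measurable_pi_lambda _ fun i => by
  unfold xt
  split_ifs with h
  · exact measurable_pi_apply _
  · exact measurable_const

theorem xt_rs {P : I → Prop} (x : I → UnitAddCircle) {i : I} (h : P i) : xt P (rs P x) i = x i :=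
  dif_pos h

theorem xt_pos {P : I → Prop} (z) {i : I} (h : P i) : xt P z i = z ⟨i, h⟩ := dif_pos h

theorem xt_neg {P : I → Prop} (z) {i : I} (h : ¬ P i) : xt P z i = 0 := dif_neg h

theorem NN_dep (hl : ∀ i j, r i j ≠ 0 → lv j < lv i) {x y : I → UnitAddCircle} {i : I}
    (h : ∀ j, lv j < lv i → x j = y j) : NN r x i = NN r y i := by
  have := NN_lv hl (z := x - y) (i := i) fun j hj => sub_eq_zero.2 (h j hj)
  rwa [map_sub, Pi.sub_apply, sub_eq_zero] at this

variable [Countable I]

theorem mdistal (hl : ∀ i j, r i j ≠ 0 → lv j < lv i) (hl3 : ∀ i, lv i < 3)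
    {X : Type} [mX : MeasurableSpace X] {μ : Measure X} [IsProbabilityMeasure μ]
    {f : (I → UnitAddCircle) → X} {g : X → I → UnitAddCircle} (hf : Measurable f)
    (hg : MeasurePreserving g μ (hm I)) (fg : ∀ᵐ w ∂μ, f (g w) = w) {S : X → X}
    (hS : ∀ᵐ w ∂μ, g (S w) = Tf r a (g w)) : MDistal μ S := by
  have h3 := RR3 hl hl3
  have lo : ∀ {α : Ordinal.{0}} {i j : I}, (lv i : Ordinal) ≤ α → lv j < lv i →
      (lv j : Ordinal) < α := fun h1 h2 => lt_of_lt_of_le (by exact_mod_cast h2) h1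
  refine ⟨3, fun α => MeasurableSpace.pi.comap fun w => rs (fun i => (lv i : Ordinal) < α) (g w),
    fun α _ => ⟨((rs_meas _).comp hg.measurable).comap_le, ?_, ?_⟩, ⟨?_, ?_⟩, ⟨?_, ?_⟩,
    fun α _ => ?_, fun α h1 h2 => ?_⟩
  · rw [MeasurableSpace.comap_comp]
    refine leAe_of ((rs_meas _).comp ((Tf_cont r a).measurable.comp (xt_meas _)))
      (hS.mono fun w hw => funext fun i => ?_)
    show g (S w) i = xt _ _ i.1 + NN r _ i + a i
    rw [hw, xt_rs _ i.2, NN_dep hl fun j hj => xt_rs _ (lo i.2.le hj)]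
    rfl
  · rw [MeasurableSpace.comap_comp]
    refine leAe_of ((rs_meas _).comp ((Th a h3).symm.continuous.measurable.comp (xt_meas _)))
      (hS.mono fun w hw => funext fun i => ?_)
    have e : g w = (Th a h3).symm (g (S w)) := by
      rw [hw]
      exact ((Th a h3).symm_apply_apply _).symm
    have k : ∀ j, (lv j : Ordinal) < α → (g (S w) - a) j =
        (xt _ (rs (fun i => (lv i : Ordinal) < α) (g (S w))) - a) j := fun j hj => by
      rw [Pi.sub_apply, Pi.sub_apply, xt_rs _ hj]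
    have k2 : ∀ j, (lv j : Ordinal) < α → NN r (g (S w) - a) j =
        NN r (xt _ (rs (fun i => (lv i : Ordinal) < α) (g (S w))) - a) j := fun j hj =>
      NN_dep hl fun l h => k l (lo hj.le h)
    show g w i = (_ - a) i.1 - NN r (_ - a) i + NN r (NN r (_ - a)) i
    rw [e]
    show (_ - a) i.1 - NN r (_ - a) i + NN r (NN r (_ - a)) i = _
    rw [k _ i.2, k2 _ i.2, NN_dep hl fun l h => k2 l (lo i.2.le h)]
    rfl
  · rw [← MeasurableSpace.comap_const (m := (inferInstance : MeasurableSpace Unit)) ()]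
    exact leAe_of (Ψ := fun _ => 0) measurable_const
      (Eventually.of_forall fun w => funext fun i => absurd i.2 (by simp))
  · exact fun A hA => ⟨A, bot_le (a := MeasurableSpace.pi.comap _) _ hA, ae_eq_refl _⟩
  · exact fun A hA => ⟨A, ((rs_meas _).comp hg.measurable).comap_le _ hA, ae_eq_refl _⟩
  · have := leAe_of (φ := id) (ψ := fun w => rs (fun i => (lv i : Ordinal) < 3) (g w))
      (hf.comp (xt_meas _)) (fg.mono fun w hw => hw.symm.trans (congrArg f (funext fun i =>
        (xt_rs _ (by exact_mod_cast hl3 i)).symm)))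
    rwa [MeasurableSpace.comap_id] at this
  · obtain ⟨P, hP⟩ : ∃ P : I → Prop, P = fun i => (lv i : Ordinal) < α := ⟨_, rfl⟩
    obtain ⟨Q, hQ⟩ : ∃ Q : I → Prop, Q = fun i => (lv i : Ordinal) = α := ⟨_, rfl⟩
    have PQ : ∀ i, P i → ¬ Q i := fun i h => by
      rw [hP] at h
      rw [hQ]
      exact h.ne
    have sj : Surjective ((rs P).prod (rs Q)) := fun p => ⟨xt P p.1 + xt Q p.2, Prod.ext
      (funext fun i => by
        show xt P p.1 i + xt Q p.2 i = _
        rw [xt_pos _ i.2, xt_neg _ (PQ _ i.2), add_zero])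
      (funext fun i => by
        show xt P p.1 i + xt Q p.2 i = _
        rw [xt_pos _ i.2, xt_neg _ fun h => PQ _ h i.2, zero_add])⟩
    have m1 : ∀ P : I → Prop, MeasurePreserving (fun w => rs P (g w)) μ (hm _) := fun P =>
      (AddMonoidHom.measurePreserving (rs_cont P)
        (fun p => ⟨xt P p, funext fun i => xt_pos _ i.2⟩) (by simp)).comp hg
    haveI : BorelSpace (({i // P i} → UnitAddCircle) × ({i // Q i} → UnitAddCircle)) :=
      Prod.borelSpace
    haveI := Measure.prod.instIsAddHaarMeasure (hm {i // P i}) (hm {i // Q i})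
    have m2 : MeasurePreserving (fun w => (rs P (g w), rs Q (g w))) μ ((hm _).prod (hm _)) :=
      (AddMonoidHom.measurePreserving (f := (rs P).prod (rs Q))
        ((rs_cont P).prodMk (rs_cont Q)) sj (by simp)).comp hg
    show IsoExt (MeasurableSpace.pi.comap fun w => rs (fun i => (lv i : Ordinal) < α) (g w)) _ μ S
    rw [← hP]
    refine ⟨{i // Q i} → UnitAddCircle, {i // Q i} → UnitAddCircle, inferInstance, inferInstance,
      inferInstance, inferInstance, inferInstance, inferInstance, inferInstance, inferInstance,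
      inferInstance, inferInstance, inferInstance, inferInstance, inferInstance, inferInstance,
      fun w => rs Q (NN r (xt P (rs P (g w))) + a), fun w => rs Q (g w),
      ((rs_meas Q).comp (((NN_cont r).measurable.comp (xt_meas P)).add_const a)).comp
        (comap_measurable _), (m1 Q).measurable, hS.mono fun w hw => funext fun i => ?_,
      fun k => ?_, (IndepFun_iff_Indep _ _ _).1 ?_, ?_⟩
    · show g (S w) i = NN r _ i + a i + g w i
      rw [hw, NN_dep hl fun j hj => xt_rs _ (hP ▸ lo (hQ ▸ i.2 : (lv i.1 : Ordinal) = α).le hj),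
        add_comm _ (g w i), ← add_assoc]
      rfl
    · rw [(m1 Q).map_eq]
      exact map_add_left_eq_self _ k
    · rw [indepFun_iff_map_prod_eq_prod_map_map (m1 P).measurable.aemeasurable
        (m1 Q).measurable.aemeasurable, m2.map_eq, (m1 P).map_eq, (m1 Q).map_eq]
    · rw [← MeasurableSpace.comap_prodMk]
      refine ⟨leAe_of ((rs_meas _).comp (((xt_meas P).comp measurable_fst).add
        ((xt_meas Q).comp measurable_snd))) (Eventually.of_forall fun w => funext fun i => ?_),
        leAe_of (((rs_meas P).prodMk (rs_meas Q)).comp (xt_meas _))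
          (Eventually.of_forall fun w => Prod.ext (funext fun i => ?_) (funext fun i => ?_))⟩
      · show g w i = xt P (rs P (g w)) i + xt Q (rs Q (g w)) i
        rcases (Order.lt_add_one_iff.1 i.2).lt_or_eq with h | h
        · have h' : P i := hP ▸ h
          rw [xt_rs _ h', xt_neg _ (PQ _ h'), add_zero]
        · have h' : Q i := hQ ▸ h
          rw [xt_rs _ h', xt_neg _ fun h => PQ _ h h', zero_add]
      · exact (xt_rs (P := fun i => (lv i : Ordinal) < α + 1) _
          (Order.lt_add_one_iff.2 (hP ▸ i.2 : (lv i.1 : Ordinal) < α).le)).symm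
      · exact (xt_rs (P := fun i => (lv i : Ordinal) < α + 1) _
          (Order.lt_add_one_iff.2 (hQ ▸ i.2 : (lv i.1 : Ordinal) = α).le)).symm
  · exact absurd ((Ordinal.omega0_le_of_isSuccLimit h2).trans h1)
      (not_le.2 (Ordinal.natCast_lt_omega0 3))

instance : NullSingletonClass (hm J) := ⟨fun x => by
  by_contra h
  haveI : Nontrivial UnitAddCircle := ⟨_, _, half_ne⟩
  haveI : Infinite J := Infinite.of_injective J.f fun _ _ h => J.f.inj h
  refine measure_ne_top (hm J) univ (infinite_univ.meas_eq_top ⟨hm J {x}, h, fun y _ => ?_⟩)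
  rw [Measure.addHaar_singleton (hm J) x, Measure.addHaar_singleton (hm J) y]⟩

theorem aut_cont {X Y : Type} [MeasurableSpace X] {μ : Measure X} [TopologicalSpace Y]
    {f : (I → UnitAddCircle) → X} (hf : MeasurePreserving f (hm I) μ)
    {F : Y → (I → UnitAddCircle) → I → UnitAddCircle}
    (hF : Continuous fun p : Y × (I → UnitAddCircle) => F p.1 p.2)
    (hR : ∀ y, MeasurePreserving (F y) (hm I) (hm I)) {T : Y → Aut μ}
    (hT : ∀ y, ∀ᵐ z ∂(hm I), (T y).1 (f z) = f (F y z)) : Continuous T := by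
  refine continuous_iInf_rng.2 fun A => continuous_iInf_rng.2 fun hA =>
    continuous_iInf_rng.2 fun B => continuous_iInf_rng.2 fun hB => continuous_induced_rng.2 ?_
  obtain ⟨Φ, hΦ⟩ : ∃ Φ : C(Y, C(I → UnitAddCircle, I → UnitAddCircle)), ∀ x, ⇑(Φ x) = F x :=
    ⟨ContinuousMap.curry ⟨_, hF⟩, fun _ => rfl⟩
  have e : ∀ x, μ.real ((T x).1 ⁻¹' A ∩ B) = (hm I).real (Φ x ⁻¹' (f ⁻¹' A) ∩ f ⁻¹' B) :=
    fun x => by
    rw [← hf.measureReal_preimage (((T x).1.measurable hA).inter hB).nullMeasurableSet,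
      preimage_inter]
    refine measureReal_congr (EventuallyEq.inter ?_ (ae_eq_refl _))
    filter_upwards [hT x] with z hz
    show ((T x).1 (f z) ∈ A) = (f (Φ x z) ∈ A)
    rw [hz, hΦ]
  refine Continuous.congr (continuous_iff_continuousAt.2 fun y => ?_) fun x => (e x).symm
  have hm' : ∀ y, MeasurePreserving (Φ y) (hm I) (hm I) := fun y => by rw [hΦ]; exact hR y
  haveI : (hm I).Regular := Measure.Regular.of_sigmaCompactSpace_of_isLocallyFiniteMeasure _
  have h := tendsto_measure_symmDiff_preimage_nhds_zero (Φ.continuous.tendsto y)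
    (Eventually.of_forall hm') (hm' y) (hf.measurable hA).nullMeasurableSet (measure_ne_top _ _)
  have h2 := (ENNReal.tendsto_toReal ENNReal.zero_ne_top).comp h
  rw [ContinuousAt, tendsto_iff_dist_tendsto_zero]
  refine squeeze_zero (fun _ => dist_nonneg) (fun w => ?_) h2
  have k : ∀ P Q : Set (I → UnitAddCircle), (hm I).real (P ∩ f ⁻¹' B) -
      (hm I).real (Q ∩ f ⁻¹' B) ≤ (hm I).real (symmDiff P Q) := fun P Q => by
    have : (hm I).real (P ∩ f ⁻¹' B) ≤ (hm I).real (Q ∩ f ⁻¹' B) +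
        (hm I).real (symmDiff P Q) := by
      refine (measureReal_mono ?_).trans (measureReal_union_le _ _)
      rintro x ⟨x1, x2⟩
      by_cases hx : x ∈ Q
      · exact Or.inl ⟨hx, x2⟩
      · exact Or.inr (Or.inl ⟨x1, hx⟩)
    linarith
  rw [Real.dist_eq, abs_sub_le_iff]
  exact ⟨k _ _, (k _ _).trans_eq (by rw [symmDiff_comm]; rfl)⟩

theorem mainM : ∃ (T : ℤ → (ℕ → ℕ) → Aut (volume : Measure unitInterval)) (B : Set (ℕ → ℕ)),
    ¬ MeasurableSet B ∧ (∀ ε, Continuous (T ε)) ∧ (∀ ε y, Ergodic (T ε y).1 volume) ∧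
      (∀ ε y, MDistal volume (T ε y).1) ∧ ∀ y, ConjA volume (T 0 y) (T 1 y) ↔ y ∈ B := by
  obtain ⟨C, B, hB, c1, c2, c3⟩ := core
  obtain ⟨f, g, hf, hg, gf, fg⟩ := iso01 (μ := hm J)
  have hR : ∀ ε y, MeasurePreserving (Tf (rr (C y) ε) aa) (hm J) (hm J) := fun ε y =>
    Tf_mp _ (rr3 _ _)
  choose T hT1 hT2 using fun ε y => push hf hg gf fg (hR ε y)
    (Th aa (rr3 (C y) ε)).symm.continuous.measurable (Th aa (rr3 (C y) ε)).symm_apply_apply
  have hT : ∀ ε y, ∀ᵐ z ∂(hm J), T ε y (f z) = f (Tf (rr (C y) ε) aa z) := fun ε y => by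
    filter_upwards [hf.quasiMeasurePreserving.ae (hT2 ε y), gf] with z h1 h2
    simp only [h1, comp, h2]
  have hT' : ∀ ε y, ∀ᵐ w, g (T ε y w) = Tf (rr (C y) ε) aa (g w) := fun ε y => by
    filter_upwards [hT2 ε y, ((hR ε y).comp hg).quasiMeasurePreserving.ae gf] with z h1 h2
    rw [h1]
    exact h2
  refine ⟨fun ε y => ⟨T ε y, hT1 ε y⟩, B, hB, fun ε => aut_cont hf (jcont c1 ε) (hR ε) (hT ε),
    fun ε y => ⟨hT1 ε y, ⟨fun s hs hs2 => ?_⟩⟩,
    fun ε y => mdistal aa (rr_lv _ _) lv3 hf.measurable hg fg (hT' ε y), fun y => ?_⟩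
  · rw [eventuallyConst_set]
    refine (erg aa (rr3 (C y) ε) (rr_hk _ _) (hf.measurable hs) ((hT ε y).mono fun z hz => ?_)).imp
      (fun h => ?_) fun h => ?_
    · rw [mem_preimage, ← hz, ← mem_preimage (f := T ε y)]
      exact Iff.of_eq (congrArg (f z ∈ ·) hs2)
    · filter_upwards [hg.quasiMeasurePreserving.ae h, fg] with w h1 h2
      rwa [mem_preimage, h2] at h1
    · filter_upwards [hg.quasiMeasurePreserving.ae h, fg] with w h1 h2
      rwa [mem_preimage, h2] at h1
  · rw [conjA_iff]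
    constructor
    · rintro ⟨U, hU⟩
      refine c3 y (fun z => g (U.1 (f z))) (hg.comp (U.2.comp hf)).measurable ?_
      filter_upwards [hT 1 y, hf.quasiMeasurePreserving.ae hU,
        (U.2.comp hf).quasiMeasurePreserving.ae (hT' 0 y)] with z h1 h2 h3
      rw [← h1, ← show T 0 y (U.1 (f z)) = _ from h2]
      exact h3
    · intro hy
      obtain ⟨Φ, h1, h2⟩ := c2 y hy
      obtain ⟨e, he, he2⟩ := push hf hg gf fg h1 Φ.symm.continuous.measurable Φ.symm_apply_apply
      refine ⟨⟨e, he⟩, ?_⟩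
      filter_upwards [he2, (hT1 1 y).quasiMeasurePreserving.ae he2, hT' 1 y,
        (h1.comp hg).quasiMeasurePreserving.ae (hT 0 y)] with w e1 e2 e3 e4
      show T 0 y (e w) = e (T 1 y w)
      simp only [comp_apply] at e1 e2 e4
      rw [e1, e2, e3, e4, h2]

end Pool.Agent.H.MP_78c86a_lc
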